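import Mathlib
import Pool.Agent.H30R3.Fin2

/-!
# A torsion-free metanilpotent variety of groups which is not finitely based
-/

set_option autoImplicit false

namespace Pool.Agent.Results.MP_8149cf_al.NotFinitelyBased

universe u v w

/-- `G` belongs to the variety of groups defined by the laws `w = 1`, `w ∈ W`. -/
def InVariety (W : Set (FreeGroup ℕ)) (G : Type u) [Group G] : Prop :=
  ∀ w ∈ W, ∀ f : ℕ → G, FreeGroup.lift f w = 1

/-- the verbal subgroup `W(G)`: the normal subgroup generated by all values in `G` of the words in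
`W` -/
def verbal (W : Set (FreeGroup ℕ)) (G : Type u) [Group G] : Subgroup G :=
  Subgroup.normalClosure {g : G | ∃ w ∈ W, ∃ f : ℕ → G, FreeGroup.lift f w = g}

instance verbal_normal (W : Set (FreeGroup ℕ)) (G : Type u) [Group G] : (verbal W G).Normal :=
  Subgroup.normalClosure_normal

/-- the variety defined by `W` is torsion-free: all its free groups `F(X) / W(F(X))` are
torsion-free -/
def TorsionFreeVariety (W : Set (FreeGroup ℕ)) : Prop :=
  ∀ (X : Type u) (g : FreeGroup X ⧸ verbal W (FreeGroup X)) (n : ℕ), n ≠ 0 → g ^ n = 1 → g = 1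

/-- the variety defined by `W` is contained in `𝔑_c 𝔑_d`: each of its groups has a normal subgroup
which is nilpotent of class at most `c` and whose quotient is nilpotent of class at most `d` -/
def InNcNd (c d : ℕ) (W : Set (FreeGroup ℕ)) : Prop :=
  ∀ (G : Type u) [Group G], InVariety W G → ∃ (N : Subgroup G) (_ : N.Normal),
    Group.IsNilpotent N ∧ Group.nilpotencyClass N ≤ c ∧
    Group.IsNilpotent (G ⧸ N) ∧ Group.nilpotencyClass (G ⧸ N) ≤ d

/-- the variety defined by `W` is finitely based: it can be defined by finitely many laws -/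
def FinitelyBased (W : Set (FreeGroup ℕ)) : Prop :=
  ∃ S : Set (FreeGroup ℕ), S.Finite ∧
    ∀ (G : Type u) [Group G], InVariety W G ↔ InVariety S G

open Pool.Agent.H30R3

/-- the laws of the group `GG2` -/
def laws : Set (FreeGroup ℕ) := {w | ∀ f : ℕ → GG2, FreeGroup.lift f w = 1}

theorem hom_lift {X : Type u} {G : Type v} {H : Type w} [Group G] [Group H] (φ : G →* H)
    (f : X → G) (w : FreeGroup X) :
    φ (FreeGroup.lift f w) = FreeGroup.lift (fun i => φ (f i)) w := by
  have : φ.comp (FreeGroup.lift f) = FreeGroup.lift (fun i => φ (f i)) := by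
    refine FreeGroup.ext_hom _ _ (fun i => ?_)
    rw [MonoidHom.comp_apply, FreeGroup.lift_apply_of, FreeGroup.lift_apply_of]
  rw [← this]; rfl

theorem lift_map' {X : Type u} {Y : Type v} {G : Type w} [Group G] (f : X → Y) (g : Y → G)
    (u : FreeGroup X) :
    FreeGroup.lift g (FreeGroup.map f u) = FreeGroup.lift (fun x => g (f x)) u := by
  have : (FreeGroup.lift g).comp (FreeGroup.map f) = FreeGroup.lift (fun x => g (f x)) := by
    refine FreeGroup.ext_hom _ _ (fun i => ?_)
    rw [MonoidHom.comp_apply, FreeGroup.map.of, FreeGroup.lift_apply_of, FreeGroup.lift_apply_of]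
  rw [← this]; rfl

/-- every word is a word in countably many letters -/
theorem rename {X : Type u} (w : FreeGroup X) :
    ∃ (r : X → ℕ) (v : FreeGroup ℕ) (s : ℕ → FreeGroup X),
      v = FreeGroup.map r w ∧ FreeGroup.lift s v = w := by
  classical
  let L := w.toWord.map Prod.fst
  let r : X → ℕ := fun x => L.idxOf x
  let s : ℕ → FreeGroup X := fun n => if h : n < L.length then FreeGroup.of L[n] else 1
  refine ⟨r, FreeGroup.map r w, s, rfl, ?_⟩
  rw [lift_map']
  have hs : ∀ x ∈ L, s (r x) = FreeGroup.of x := by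
    intro x hx
    have h1 : L.idxOf x < L.length := List.idxOf_lt_length_iff.mpr hx
    show (if h : L.idxOf x < L.length then FreeGroup.of L[L.idxOf x] else 1) = _
    rw [dif_pos h1, List.getElem_idxOf]
  have key : ∀ M : List (X × Bool), (∀ p ∈ M, p.1 ∈ L) →
      FreeGroup.lift (fun x => s (r x)) (FreeGroup.mk M) = FreeGroup.mk M := by
    intro M
    induction M with
    | nil =>
      intro _
      rw [← FreeGroup.one_eq_mk, map_one]
    | cons p M ih =>
      intro hM
      have h1 : FreeGroup.mk (p :: M) = FreeGroup.mk [p] * FreeGroup.mk M := by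
        rw [FreeGroup.mul_mk]; rfl
      rw [h1, map_mul, ih fun q hq => hM q (List.mem_cons_of_mem _ hq)]
      congr 1
      have h3 := hs p.1 (hM p List.mem_cons_self)
      obtain ⟨x, b⟩ := p
      cases b with
      | true =>
        have h4 : FreeGroup.mk [(x, true)] = FreeGroup.of x := rfl
        rw [h4, FreeGroup.lift_apply_of]
        exact h3
      | false =>
        have h4 : FreeGroup.mk [(x, false)] = (FreeGroup.of x)⁻¹ := rfl
        rw [h4, map_inv, FreeGroup.lift_apply_of]
        exact congrArg _ h3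
  have h5 := key w.toWord fun p hp => List.mem_map_of_mem hp
  rw [FreeGroup.mk_toWord] at h5
  exact h5

theorem law_of {X : Type u} (w : FreeGroup X) (hw : ∀ φ : FreeGroup X →* GG2, φ w = 1) :
    ∃ v ∈ laws, ∃ s : ℕ → FreeGroup X, FreeGroup.lift s v = w := by
  obtain ⟨r, v, s, hv, hs⟩ := rename w
  refine ⟨v, ?_, s, hs⟩
  intro f
  rw [hv, lift_map']
  exact hw _

theorem mem_verbal_iff {X : Type u} (w : FreeGroup X) :
    w ∈ verbal laws (FreeGroup X) ↔ ∀ φ : FreeGroup X →* GG2, φ w = 1 := by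
  constructor
  · intro h φ
    have hle : verbal laws (FreeGroup X) ≤ φ.ker := by
      apply Subgroup.normalClosure_le_normal
      rintro _ ⟨v, hv, f, rfl⟩
      show φ (FreeGroup.lift f v) = 1
      rw [hom_lift]
      exact hv _
    exact hle h
  · intro h
    obtain ⟨v, hv, s, hs⟩ := law_of w h
    exact Subgroup.subset_normalClosure ⟨v, hv, s, hs⟩

theorem torsionFree : TorsionFreeVariety.{u} laws := by
  intro X g n hn h
  obtain ⟨w, rfl⟩ := QuotientGroup.mk'_surjective _ g
  rw [← map_pow] at h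
  have h1 : w ^ n ∈ verbal laws (FreeGroup X) := (QuotientGroup.eq_one_iff _).mp h
  refine (QuotientGroup.eq_one_iff _).mpr ?_
  rw [mem_verbal_iff] at h1 ⊢
  intro φ
  refine gg_tf _ n hn ?_
  rw [← map_pow]
  exact h1 φ

theorem lcs_of {G : Type u} [Group G] (hG : InVariety laws G) :
    ((⊤ : Subgroup G).lowerCentralSeries 2).lowerCentralSeries 3 = ⊥ := by
  let π : FreeGroup G →* G := FreeGroup.lift id
  have hπ : Function.Surjective π := by
    intro g
    exact ⟨FreeGroup.of g, by simp [π]⟩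
  have h1 : (((⊤ : Subgroup (FreeGroup G)).lowerCentralSeries 2).lowerCentralSeries 3).map π =
      ((⊤ : Subgroup G).lowerCentralSeries 2).lowerCentralSeries 3 := by
    rw [Subgroup.map_lowerCentralSeries, Subgroup.map_lowerCentralSeries,
      Subgroup.map_top_of_surjective π hπ]
  rw [← h1, eq_bot_iff]
  rintro _ ⟨w, hw, rfl⟩
  rw [Subgroup.mem_bot]
  have h3 : ∀ φ : FreeGroup G →* GG2, φ w = 1 := by
    intro φ
    have h4 := Subgroup.mem_map_of_mem φ hw
    rw [Subgroup.map_lowerCentralSeries, Subgroup.map_lowerCentralSeries] at h4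
    have h5 : φ w ∈ ((⊤ : Subgroup GG2).lowerCentralSeries 2).lowerCentralSeries 3 :=
      Subgroup.lowerCentralSeries_mono 3 (Subgroup.lowerCentralSeries_mono 2
        (le_top : (⊤ : Subgroup (FreeGroup G)).map φ ≤ ⊤)) h4
    rw [gg_lcs] at h5
    exact h5
  obtain ⟨v, hv, s, hs⟩ := law_of w h3
  rw [← hs, hom_lift]
  exact hG v hv _

theorem inNcNd : InNcNd.{u} 3 2 laws := by
  intro G _ hG
  refine ⟨(⊤ : Subgroup G).lowerCentralSeries 2, inferInstance, ?_⟩
  have h1 : (⊤ : Subgroup ((⊤ : Subgroup G).lowerCentralSeries 2)).lowerCentralSeries 3 = ⊥ := by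
    rw [← Subgroup.map_subtype_inj, Subgroup.map_bot, Subgroup.top_subtype_lowerCentralSeries]
    exact lcs_of hG
  have h3 : (⊤ : Subgroup (G ⧸ (⊤ : Subgroup G).lowerCentralSeries 2)).lowerCentralSeries 2 =
      ⊥ := by
    have h4 : ((⊤ : Subgroup G).lowerCentralSeries 2).map
        (QuotientGroup.mk' ((⊤ : Subgroup G).lowerCentralSeries 2)) =
        (⊤ : Subgroup (G ⧸ (⊤ : Subgroup G).lowerCentralSeries 2)).lowerCentralSeries 2 :=
      (Subgroup.map_lowerCentralSeries _ _ _).trans (congrArg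
        (fun K : Subgroup (G ⧸ (⊤ : Subgroup G).lowerCentralSeries 2) => K.lowerCentralSeries 2)
        (Subgroup.map_top_of_surjective _ (QuotientGroup.mk'_surjective _)))
    rw [← h4, QuotientGroup.map_mk'_self]
  have n1 : Group.IsNilpotent ((⊤ : Subgroup G).lowerCentralSeries 2) := Subgroup.nilpotent_iff_lowerCentralSeries.mpr ⟨3, h1⟩
  have n2 : Group.IsNilpotent (G ⧸ (⊤ : Subgroup G).lowerCentralSeries 2) := Subgroup.nilpotent_iff_lowerCentralSeries.mpr ⟨2, h3⟩
  exact ⟨n1, Subgroup.lowerCentralSeries_eq_bot_iff_nilpotencyClass_le.mp h1, n2,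
    Subgroup.lowerCentralSeries_eq_bot_iff_nilpotencyClass_le.mp h3⟩

theorem inVariety_of_injective {W : Set (FreeGroup ℕ)} {G : Type u} {H : Type v} [Group G]
    [Group H] (φ : G →* H) (hφ : Function.Injective φ) (h : InVariety W H) : InVariety W G := by
  intro w hw f
  apply hφ
  rw [hom_lift, map_one]
  exact h w hw _

theorem two_zero : (2 : RatFunc (ZMod 2)) = 0 := by
  have h : (2 : ZMod 2) = 0 := by decide
  have := congrArg (algebraMap (ZMod 2) (RatFunc (ZMod 2))) h
  rwa [map_zero, map_ofNat] at this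

theorem X_pow_ne (m : ℕ) (h : (RatFunc.X : RatFunc (ZMod 2)) ^ m = 1) : m = 0 := by
  have h1 : algebraMap (Polynomial (ZMod 2)) (RatFunc (ZMod 2)) (Polynomial.X ^ m) =
      algebraMap (Polynomial (ZMod 2)) (RatFunc (ZMod 2)) 1 := by
    rw [map_pow, RatFunc.algebraMap_X, h, map_one]
  have h2 := RatFunc.algebraMap_injective _ h1
  have h3 := congrArg Polynomial.natDegree h2
  simpa using h3

noncomputable def tX : (RatFunc (ZMod 2))ˣ := Units.mk0 RatFunc.X RatFunc.X_ne_zero

theorem tX_pow (m : ℤ) (h : tX ^ m = 1) : m = 0 := by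
  have h1 : (RatFunc.X : RatFunc (ZMod 2)) ^ m = 1 := by
    have := congrArg (fun u : (RatFunc (ZMod 2))ˣ => (u : RatFunc (ZMod 2))) h
    simpa [tX] using this
  rcases Int.eq_nat_or_neg m with ⟨k, rfl | rfl⟩
  · rw [zpow_natCast] at h1
    rw [X_pow_ne k h1]
    rfl
  · rw [zpow_neg, inv_eq_one, zpow_natCast] at h1
    rw [X_pow_ne k h1]
    rfl

theorem not_finitelyBased : ¬ FinitelyBased.{u} laws := by
  rintro ⟨S, hfin, hS⟩
  -- all words in `S` are laws of the big group
  have h1 : InVariety S (ULift.{u} GG2) := by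
    rw [← hS]
    refine inVariety_of_injective (MulEquiv.ulift : ULift.{u} GG2 ≃* GG2).toMonoidHom
      (MulEquiv.ulift : ULift.{u} GG2 ≃* GG2).injective ?_
    intro w hw
    exact hw
  have h2 : InVariety S GG2 :=
    inVariety_of_injective (MulEquiv.ulift : ULift.{u} GG2 ≃* GG2).symm.toMonoidHom
      (MulEquiv.ulift : ULift.{u} GG2 ≃* GG2).symm.injective h1
  obtain ⟨n, hn⟩ := final2 two_zero tX tX_pow hfin.toFinset
    (fun s hs => h2 s (hfin.mem_toFinset.mp hs))
  set R := Subgroup.normalClosure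
      {u : FreeGroup ℕ | ∃ s ∈ hfin.toFinset, ∃ φ : FreeGroup ℕ →* FreeGroup ℕ, φ s = u} with hR
  have h3 : InVariety S (FreeGroup ℕ ⧸ R) := by
    intro s hs f
    choose g hg using fun i => QuotientGroup.mk'_surjective R (f i)
    have e : f = fun i => QuotientGroup.mk' R (g i) := funext fun i => (hg i).symm
    rw [e, ← hom_lift]
    refine (QuotientGroup.eq_one_iff _).mpr ?_
    exact Subgroup.subset_normalClosure ⟨s, hfin.mem_toFinset.mpr hs, FreeGroup.lift g, rfl⟩
  have h4 : InVariety S (ULift.{u} (FreeGroup ℕ ⧸ R)) :=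
    inVariety_of_injective (MulEquiv.ulift : ULift.{u} (FreeGroup ℕ ⧸ R) ≃* (FreeGroup ℕ ⧸ R)).toMonoidHom
      (MulEquiv.ulift : ULift.{u} (FreeGroup ℕ ⧸ R) ≃* (FreeGroup ℕ ⧸ R)).injective h3
  rw [← hS] at h4
  have h5 : InVariety laws (FreeGroup ℕ ⧸ R) :=
    inVariety_of_injective (MulEquiv.ulift : ULift.{u} (FreeGroup ℕ ⧸ R) ≃* (FreeGroup ℕ ⧸ R)).symm.toMonoidHom
      (MulEquiv.ulift : ULift.{u} (FreeGroup ℕ ⧸ R) ≃* (FreeGroup ℕ ⧸ R)).symm.injective h4
  apply hn
  have h6 := h5 (Lw2 n) (fun f => Lw2_law n (FreeGroup.lift f))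
    (fun i => QuotientGroup.mk' R (FreeGroup.of i))
  rw [← hom_lift] at h6
  have h7 : FreeGroup.lift (fun i => FreeGroup.of i) (Lw2 n) = Lw2 n := by
    have : FreeGroup.lift (fun i : ℕ => FreeGroup.of i) = MonoidHom.id (FreeGroup ℕ) := by
      refine FreeGroup.ext_hom _ _ (fun i => ?_)
      rw [FreeGroup.lift_apply_of]; rfl
    rw [this]; rfl
  rw [h7] at h6
  exact (QuotientGroup.eq_one_iff _).mp h6

/-- There is a set `W` of laws such that the variety of groups defined by `W` is contained in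
`𝔑₃𝔑₂`, is torsion-free, and cannot be defined by finitely many laws. -/
theorem result : ∃ W : Set (FreeGroup ℕ),
    InNcNd.{u} 3 2 W ∧ TorsionFreeVariety.{u} W ∧ ¬ FinitelyBased.{u} W :=
  ⟨laws, inNcNd, torsionFree, not_finitelyBased⟩

end Pool.Agent.Results.MP_8149cf_al.NotFinitelyBased
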